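import Pool.Agent.H699.T.Bnd

/-!
# Units can be explored with a bounded number of rows
-/

set_option autoImplicit false

namespace Pool.Agent.H230.T.LUN

open Finset Classical Pool.Agent.H699.T

variable {N : ℕ}

/-! ### The calculus -/

section lc

variable (LB : S_LOCBASIC) {O O' : Type} {D D' : Set (Fin N → Fin N → ℕ)} {c c' : ℕ}
include LB

theorem loc_mono {f : (Fin N → Fin N → ℕ) → O} (h : LocOn D c f) (hs : D' ⊆ D) (hc : c ≤ c') :
    LocOn D' c' f := LB.1 _ _ _ D D' c c' f h hs hc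

theorem loc_const {f : (Fin N → Fin N → ℕ) → O} (h : ∀ d ∈ D, ∀ d' ∈ D, f d = f d') :
    LocOn D 0 f := LB.2.2.2.1 _ _ _ D f h

theorem loc_bind {g : (Fin N → Fin N → ℕ) → O} {f : (Fin N → Fin N → ℕ) → O'}
    (h : LocOn D c g) (h' : ∀ d0 ∈ D, LocOn {d | d ∈ D ∧ g d = g d0} c' f) :
    LocOn D (c + c') f := by
  refine LB.2.1 _ _ _ _ D c c' g f h fun a => ?_
  by_cases ha : ∃ d0 ∈ D, g d0 = a
  · obtain ⟨d0, hd0, rfl⟩ := ha
    exact h' d0 hd0
  · have : LocOn {d | d ∈ D ∧ g d = a} 0 f :=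
      loc_const LB fun d hd => absurd ⟨d, hd.1, hd.2⟩ ha
    exact loc_mono LB this (fun _ h => h) (Nat.zero_le _)

theorem loc_det {g : (Fin N → Fin N → ℕ) → O} {f : (Fin N → Fin N → ℕ) → O'}
    (h : LocOn D c g) (h' : ∀ d ∈ D, ∀ d' ∈ D, g d = g d' → f d = f d') : LocOn D c f :=
  LB.2.2.1 _ _ _ _ D c g f h h'

theorem loc_row (D : Set (Fin N → Fin N → ℕ)) (x : Fin N) : LocOn D N (fun d => d x) := by
  have := LB.2.2.2.2.2.1 (Fin N) ℕ D x
  rwa [Fintype.card_fin] at this

theorem loc_pi [Inhabited O] (I : Finset (Fin N)) (g : Fin N → (Fin N → Fin N → ℕ) → O)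
    (h : ∀ i ∈ I, LocOn D c (g i)) :
    LocOn D (I.card * c) (fun d i => if i ∈ I then g i d else default) := by
  have h1 := LB.2.2.2.2.2.2 _ _ _ _ D c I g h
  refine loc_det LB h1 fun d _ d' _ he => ?_
  funext i
  by_cases hi : i ∈ I
  · have h2 := congrFun he i
    simp only [if_pos hi] at h2 ⊢
    exact h2
  · simp only [if_neg hi]

end lc

/-! ### Good sets of inputs -/

/-- all inputs are metrics with the same rows on `R` -/
def Gd (k : ℕ) (R : Finset (Fin N)) (D : Set (Fin N → Fin N → ℕ)) : Prop :=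
  (∀ d ∈ D, IMet k d) ∧ ∀ d ∈ D, ∀ d' ∈ D, ∀ r ∈ R, ∀ y, d r y = d' r y

theorem Gd.mono {k : ℕ} {R : Finset (Fin N)} {D D' : Set (Fin N → Fin N → ℕ)} (h : Gd k R D)
    (hs : D' ⊆ D) : Gd k R D' :=
  ⟨fun d hd => h.1 d (hs hd), fun d hd d' hd' => h.2 d (hs hd) d' (hs hd')⟩

theorem Gd.lev {k : ℕ} {R : Finset (Fin N)} {D : Set (Fin N → Fin N → ℕ)} (h : Gd k R D)
    {O : Type} (g : (Fin N → Fin N → ℕ) → O) (a : O) : Gd k R {d | d ∈ D ∧ g d = a} :=
  h.mono fun _ hd => hd.1

theorem Gd.key {k : ℕ} {R : Finset (Fin N)} {D : Set (Fin N → Fin N → ℕ)} (h : Gd k R D)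
    (K : S_KEY) {d : Fin N → Fin N → ℕ} (hd : d ∈ D) : IsKey (key d) :=
  (K N d (h.1 d hd).symm).1

theorem key_eq {d d' : Fin N → Fin N → ℕ} {a : Fin N} (h : d a = d' a) (b : Fin N) :
    key d a b = key d' a b := by
  unfold key
  rw [h]

/-! ### Prim's exploration -/

/-- the explored set with its rows -/
noncomputable def pst (v : Fin N) (i : ℕ) (d : Fin N → Fin N → ℕ) :
    Finset (Fin N) × (Fin N → Fin N → ℕ) :=
  (prim (key d) v i, fun a => if a ∈ prim (key d) v i then d a else fun _ => 0)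

theorem pst_rows {v : Fin N} {i : ℕ} {d d' : Fin N → Fin N → ℕ} (h : pst v i d = pst v i d') :
    prim (key d) v i = prim (key d') v i ∧ ∀ a ∈ prim (key d) v i, d a = d' a := by
  have h1 : prim (key d) v i = prim (key d') v i := congrArg Prod.fst h
  refine ⟨h1, fun a ha => ?_⟩
  have h2 := congrFun (congrArg Prod.snd h) a
  simp only [pst] at h2
  rwa [if_pos ha, if_pos (h1 ▸ ha)] at h2

theorem nu_eq (P1 : S_PRIM1) {d d' : Fin N → Fin N → ℕ} (hk : IsKey (key d)) (v : Fin N)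
    (S : Finset (Fin N)) (h : ∀ a ∈ S, d a = d' a) : nu (key d') v S = nu (key d) v S :=
  (P1 N (key d) hk v).2.2.2.2 S (key d') fun a ha b => (key_eq (h a ha) b).symm

theorem pst_loc (LB : S_LOCBASIC) (K : S_KEY) (P1 : S_PRIM1) {k : ℕ} {R : Finset (Fin N)}
    {D : Set (Fin N → Fin N → ℕ)} (hG : Gd k R D) (v : Fin N) (i : ℕ) :
    LocOn D ((i + 1) * N) (pst v i) := by
  induction i with
  | zero =>
    have h1 : LocOn D N (pst v 0) := by
      refine loc_det LB (loc_row LB D v) fun d _ d' _ h => ?_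
      have e1 : prim (key d) v 0 = {v} := rfl
      have e2 : prim (key d') v 0 = {v} := rfl
      unfold pst
      rw [e1, e2]
      congr 1
      funext a
      by_cases ha : a ∈ ({v} : Finset (Fin N))
      · rw [if_pos ha, if_pos ha, mem_singleton.1 ha]
        exact h
      · rw [if_neg ha, if_neg ha]
    rwa [Nat.zero_add, Nat.one_mul]
  | succ i ih =>
    rw [Nat.add_mul, Nat.one_mul]
    refine loc_bind LB ih fun d0 hd0 => ?_
    set S := prim (key d0) v i with hS
    set y0 := nu (key d0) v S with hy0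
    refine loc_det LB (loc_row LB _ y0) fun d hd d' hd' h => ?_
    have hp : ∀ e ∈ {d | d ∈ D ∧ pst v i d = pst v i d0}, prim (key e) v (i + 1) = insert y0 S ∧
        ∀ a ∈ S, e a = d0 a := by
      intro e he
      obtain ⟨h1, h2⟩ := pst_rows he.2
      have h3 : prim (key e) v (i + 1) = insert (nu (key e) v (prim (key e) v i))
        (prim (key e) v i) := rfl
      have h4 : nu (key e) v S = y0 :=
        nu_eq P1 (hG.key K hd0) v S fun a ha => (h2 a (by rw [h1]; exact ha)).symm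
      refine ⟨by rw [h3, h1, ← hS, h4], fun a ha => h2 a (by rw [h1]; exact ha)⟩
    obtain ⟨e1, e2⟩ := hp d hd
    obtain ⟨e3, e4⟩ := hp d' hd'
    unfold pst
    rw [e1, e3]
    congr 1
    funext a
    by_cases ha : a ∈ insert y0 S
    · rw [if_pos ha, if_pos ha]
      rcases mem_insert.1 ha with rfl | ha'
      · exact h
      · rw [e2 a ha', e4 a ha']
    · rw [if_neg ha, if_neg ha]

theorem pst_agree (P1 : S_PRIM1) {d d' : Fin N → Fin N → ℕ} (hk : IsKey (key d)) {v : Fin N}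
    {L : ℕ} (h : pst v L d = pst v L d') : ∀ i ≤ L, prim (key d) v i = prim (key d') v i ∧
      nu (key d) v (prim (key d) v i) = nu (key d') v (prim (key d') v i) := by
  obtain ⟨_, h2⟩ := pst_rows h
  have hm := (P1 N (key d) hk v).2.1
  have hnu : ∀ i ≤ L, prim (key d) v i = prim (key d') v i →
      nu (key d) v (prim (key d) v i) = nu (key d') v (prim (key d') v i) := by
    intro i hi he
    rw [← he]
    exact (nu_eq P1 hk v _ fun a ha => h2 a (hm i L hi ha)).symm
  intro i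
  induction i with
  | zero => exact fun hi => ⟨rfl, hnu 0 hi rfl⟩
  | succ i ih =>
    intro hi
    obtain ⟨h3, h4⟩ := ih (by omega)
    have h5 : prim (key d) v (i + 1) = prim (key d') v (i + 1) := by
      show insert _ _ = insert _ _
      rw [h4, h3]
    exact ⟨h5, hnu _ hi h5⟩

/-! ### Membership in the units, parents -/

theorem dn_eq (K : S_KEY) {k : ℕ} {R : Finset (Fin N)} {D : Set (Fin N → Fin N → ℕ)}
    (hG : Gd k R D) {d d' : Fin N → Fin N → ℕ} (hd : d ∈ D) (hd' : d' ∈ D) {y : Fin N}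
    (h : d y = d' y) : dn (key d) R y = dn (key d') R y := by
  have hk := hG.key K hd
  have hk' := hG.key K hd'
  have h1 : ∀ x, key d x y = key d' x y := fun x => by
    rw [hk.symm, hk'.symm x, key_eq h]
  have h2 : ∀ x, mR (key d) R x = mR (key d') R x := by
    intro x
    unfold mR
    congr 1
    refine Set.image_congr fun r hr => ?_
    rw [hk.symm, hk'.symm x]
    exact key_eq (funext fun z => hG.2 d hd d' hd' r hr z) x
  unfold dn
  refine filter_congr fun x _ => ?_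
  rw [h1, h2]

/-- membership, parent, row -/
noncomputable def q1 (R : Finset (Fin N)) (L Δ : ℕ) (x : Fin N) (d : Fin N → Fin N → ℕ) :
    Prop × Fin N × (Fin N → ℕ) :=
  (x ∈ V0 (key d) R L Δ, if x ∈ V0 (key d) R L Δ then par (key d) R x else x, d x)

theorem q1_det (K : S_KEY) (P1 : S_PRIM1) (PL : S_PLOC) {k : ℕ} {R : Finset (Fin N)}
    (hR : R.Nonempty) {D : Set (Fin N → Fin N → ℕ)} (hG : Gd k R D) (L Δ : ℕ) (x : Fin N)
    {d d' : Fin N → Fin N → ℕ} (hd : d ∈ D) (hd' : d' ∈ D) (h : pst x L d = pst x L d') :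
    q1 R L Δ x d = q1 R L Δ x d' := by
  have hk := hG.key K hd
  have hk' := hG.key K hd'
  obtain ⟨_, hrow⟩ := pst_rows h
  have hag := pst_agree P1 hk h
  have hx : d x = d' x := hrow x ((P1 N (key d) hk x).1 L)
  have hbad : Bad (key d) R L x ↔ Bad (key d') R L x := by
    unfold Bad
    refine forall_congr' fun i => forall_congr' fun hi => ?_
    rw [(hag i hi.le).2]
  have hhub : Hub (key d) R Δ x ↔ Hub (key d') R Δ x := by
    unfold Hub
    rw [dn_eq K hG hd hd' hx]
  have hV : x ∈ V0 (key d) R L Δ ↔ x ∈ V0 (key d') R L Δ := by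
    simp only [V0, mem_filter, mem_univ, true_and, hbad, hhub]
  unfold q1
  by_cases hxV : x ∈ V0 (key d) R L Δ
  · have hxV' := hV.1 hxV
    have hx2 := hxV
    simp only [V0, mem_filter, mem_univ, true_and, Bad, not_forall, not_not] at hx2
    obtain ⟨hxR, ⟨i, hiL, hi⟩, _⟩ := hx2
    have hhit : hit (key d) R x ≤ L := (Nat.sInf_le hi).trans hiL.le
    have hsub : X (key d) R x ⊆ prim (key d) x L := (P1 N (key d) hk x).2.1 _ _ hhit
    have hp := (PL N (key d) (key d') hk hk' R hR x hxR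
      fun a ha b => (key_eq (hrow a (hsub ha)) b).symm).2
    rw [if_pos hxV, if_pos hxV', hp, hx]
    simp only [hxV, hxV']
  · have hxV' : x ∉ V0 (key d') R L Δ := fun h => hxV (hV.2 h)
    rw [if_neg hxV, if_neg hxV', hx]
    simp only [hxV, hxV']

theorem q1_loc (LB : S_LOCBASIC) (K : S_KEY) (P1 : S_PRIM1) (PL : S_PLOC) {k : ℕ}
    {R : Finset (Fin N)} (hR : R.Nonempty) {D : Set (Fin N → Fin N → ℕ)} (hG : Gd k R D)
    (L Δ : ℕ) (x : Fin N) : LocOn D ((L + 1) * N) (q1 R L Δ x) :=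
  loc_det LB (pst_loc LB K P1 hG x L) fun _ hd _ hd' h => q1_det K P1 PL hR hG L Δ x hd hd' h

/-- the parent inside the units -/
noncomputable def pp (R : Finset (Fin N)) (L Δ : ℕ) (d : Fin N → Fin N → ℕ) (x : Fin N) : Fin N :=
  p0 (key d) R L Δ x

theorem pp_loc (LB : S_LOCBASIC) (K : S_KEY) (P1 : S_PRIM1) (PL : S_PLOC) {k : ℕ}
    {R : Finset (Fin N)} (hR : R.Nonempty) {D : Set (Fin N → Fin N → ℕ)} (hG : Gd k R D)
    (L Δ : ℕ) (x : Fin N) : LocOn D (2 * ((L + 1) * N)) (fun d => pp R L Δ d x) := by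
  rw [Nat.two_mul]
  refine loc_bind LB (q1_loc LB K P1 PL hR hG L Δ x) fun d0 hd0 => ?_
  set u := (q1 R L Δ x d0).2.1 with hu
  refine loc_det LB (q1_loc LB K P1 PL hR (hG.lev _ _) L Δ u) fun d hd d' hd' h => ?_
  have hx : q1 R L Δ x d = q1 R L Δ x d' := hd.2.trans hd'.2.symm
  have hxV : (x ∈ V0 (key d) R L Δ) = (x ∈ V0 (key d') R L Δ) := congrArg Prod.fst hx
  have huV : (u ∈ V0 (key d) R L Δ) = (u ∈ V0 (key d') R L Δ) := congrArg Prod.fst h
  have hpu : ∀ e ∈ {d | d ∈ D ∧ q1 R L Δ x d = q1 R L Δ x d0}, x ∈ V0 (key e) R L Δ →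
      par (key e) R x = u := by
    intro e he hxe
    have := congrArg (fun z => z.2.1) he.2
    simp only [q1] at this
    rw [if_pos hxe] at this
    rw [this, hu]
    rfl
  unfold pp p0
  by_cases hxe : x ∈ V0 (key d) R L Δ
  · have hxe' : x ∈ V0 (key d') R L Δ := hxV ▸ hxe
    have h1 := hpu d hd hxe
    have h2 := hpu d' hd' hxe'
    rw [h1, h2]
    by_cases hue : u ∈ V0 (key d) R L Δ
    · have hue' : u ∈ V0 (key d') R L Δ := huV ▸ hue
      rw [if_pos ⟨hxe, hue⟩, if_pos ⟨hxe', hue'⟩]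
    · have hue' : u ∉ V0 (key d') R L Δ := fun h => hue (huV ▸ h)
      rw [if_neg fun h => hue h.2, if_neg fun h => hue' h.2]
  · have hxe' : x ∉ V0 (key d') R L Δ := fun h => hxe (hxV ▸ h)
    rw [if_neg fun h => hxe h.1, if_neg fun h => hxe' h.1]

/-! ### Iterates -/

/-- the first iterates of the parent function -/
noncomputable def sq (R : Finset (Fin N)) (L Δ : ℕ) (x : Fin N) (i : ℕ) (d : Fin N → Fin N → ℕ)
    (j : ℕ) : Fin N :=
  if j ≤ i then (pp R L Δ d)^[j] x else x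

theorem sq_loc (LB : S_LOCBASIC) (K : S_KEY) (P1 : S_PRIM1) (PL : S_PLOC) {k : ℕ}
    {R : Finset (Fin N)} (hR : R.Nonempty) {D : Set (Fin N → Fin N → ℕ)} (hG : Gd k R D)
    (L Δ : ℕ) (x : Fin N) (i : ℕ) : LocOn D (i * (2 * ((L + 1) * N))) (sq R L Δ x i) := by
  induction i with
  | zero =>
    rw [Nat.zero_mul]
    refine loc_const LB fun d _ d' _ => ?_
    funext j
    unfold sq
    by_cases hj : j ≤ 0
    · obtain rfl : j = 0 := by omega
      rw [if_pos hj, if_pos hj, Function.iterate_zero_apply, Function.iterate_zero_apply]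
    · rw [if_neg hj, if_neg hj]
  | succ i ih =>
    rw [Nat.add_mul, Nat.one_mul]
    refine loc_bind LB ih fun d0 hd0 => ?_
    set u := sq R L Δ x i d0 i with hu
    refine loc_det LB (pp_loc LB K P1 PL hR (hG.lev _ _) L Δ u) fun d hd d' hd' h => ?_
    have hi : ∀ e ∈ {d | d ∈ D ∧ sq R L Δ x i d = sq R L Δ x i d0},
        (pp R L Δ e)^[i] x = u := by
      intro e he
      have := congrFun he.2 i
      rw [← hu] at this
      unfold sq at this
      rwa [if_pos le_rfl] at this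
    have hx : sq R L Δ x i d = sq R L Δ x i d' := hd.2.trans hd'.2.symm
    funext j
    unfold sq
    by_cases hj : j ≤ i
    · have h1 := congrFun hx j
      unfold sq at h1
      rw [if_pos hj, if_pos hj] at h1
      rw [if_pos (by omega), if_pos (by omega), h1]
    · by_cases hj2 : j ≤ i + 1
      · obtain rfl : j = i + 1 := by omega
        rw [if_pos le_rfl, if_pos le_rfl, Function.iterate_succ_apply',
          Function.iterate_succ_apply', hi d hd, hi d' hd']
        exact h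
      · rw [if_neg hj2, if_neg hj2]

theorem iter_top {α : Type} [Fintype α] (p : α → α) (x T : α) (n L : ℕ) (hT : p^[n] x = T)
    (hfix : p T = T) (hc : (univ.filter fun u => ∃ i : ℕ, p^[i] x = u).card ≤ L) :
    p^[L] x = T ∧ ∀ i : ℕ, ∃ j ≤ L, p^[j] x = p^[i] x := by
  have hex : ∃ m, p^[m] x = T := ⟨n, hT⟩
  set m := Nat.find hex with hm
  have hmT : p^[m] x = T := Nat.find_spec hex
  have hmin : ∀ j < m, p^[j] x ≠ T := fun j hj => Nat.find_min hex hj
  have hinj : Set.InjOn (fun i => p^[i] x) (range (m + 1) : Set ℕ) := by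
    have key : ∀ i j : ℕ, i < j → j ≤ m → p^[i] x ≠ p^[j] x := by
      intro i j hij hjm he
      have h1 : p^[(m - j) + i] x = T := by
        rw [Function.iterate_add_apply, he, ← Function.iterate_add_apply,
          show m - j + j = m by omega, hmT]
      exact hmin _ (by omega) h1
    intro i hi j hj he
    simp only [coe_range, Set.mem_Iio] at hi hj
    rcases lt_trichotomy i j with h | h | h
    · exact absurd he (key i j h (by omega))
    · exact h
    · exact absurd he.symm (key j i h (by omega))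
  have hcard : m + 1 ≤ L := by
    have h1 : ((range (m + 1)).image fun i => p^[i] x).card = m + 1 := by
      rw [card_image_of_injOn hinj, card_range]
    rw [← h1]
    refine (card_le_card ?_).trans hc
    intro u hu
    obtain ⟨i, _, rfl⟩ := mem_image.1 hu
    exact mem_filter.2 ⟨mem_univ _, i, rfl⟩
  have hge : ∀ i, m ≤ i → p^[i] x = T := by
    intro i hi
    have h1 : p^[(i - m) + m] x = T := by
      rw [Function.iterate_add_apply, hmT]
      exact Function.iterate_fixed hfix _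
    rwa [show i - m + m = i by omega] at h1
  refine ⟨hge L (by omega), fun i => ?_⟩
  rcases le_total i m with h | h
  · exact ⟨i, by omega, rfl⟩
  · exact ⟨m, by omega, by rw [hmT, hge i h]⟩

theorem p0_out {κ : Fin N → Fin N → ℕ} {R : Finset (Fin N)} {L Δ : ℕ} {x : Fin N}
    (hx : x ∉ V0 κ R L Δ) (i : ℕ) : (p0 κ R L Δ)^[i] x = x := by
  apply Function.iterate_fixed
  unfold p0
  rw [if_neg fun h => hx h.1]

theorem top_iter (UN : S_UNIT) {κ : Fin N → Fin N → ℕ} (hκ : IsKey κ) {R : Finset (Fin N)}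
    (hR : R.Nonempty) (L Δ : ℕ) (x : Fin N) :
    top κ R L Δ x = (p0 κ R L Δ)^[L] x ∧
      ch κ R L Δ x = univ.filter fun u => ∃ j ≤ L, (p0 κ R L Δ)^[j] x = u := by
  by_cases hx : x ∈ V0 κ R L Δ
  · obtain ⟨hU, _⟩ := UN N κ hκ R hR L Δ
    obtain ⟨_, h2, _, h4, h5, h6, _⟩ := hU x hx
    have ht : top κ R L Δ x ∈ V0 κ R L Δ := h2 h5
    have htt : top κ R L Δ (top κ R L Δ x) = top κ R L Δ x := h6 _ h5
    have hpar : par κ R (top κ R L Δ x) ∉ V0 κ R L Δ := (hU _ ht).2.2.2.2.2.2.1 htt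
    have hfix : p0 κ R L Δ (top κ R L Δ x) = top κ R L Δ x := by
      unfold p0
      rw [if_neg fun h => hpar h.2]
    obtain ⟨h7, h8⟩ := iter_top (p0 κ R L Δ) x (top κ R L Δ x) N L rfl hfix h4
    refine ⟨h7.symm, ?_⟩
    unfold ch
    ext u
    simp only [mem_filter, mem_univ, true_and]
    constructor
    · rintro ⟨i, rfl⟩
      exact h8 i
    · rintro ⟨j, _, rfl⟩
      exact ⟨j, rfl⟩
  · refine ⟨by unfold top; rw [p0_out hx, p0_out hx], ?_⟩
    unfold ch
    ext u
    simp only [mem_filter, mem_univ, true_and, p0_out hx, exists_const]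
    constructor
    · intro h
      exact ⟨0, Nat.zero_le _, h⟩
    · rintro ⟨_, _, h⟩
      exact h

/-- all data of a vertex -/
noncomputable def FF (R : Finset (Fin N)) (L Δ : ℕ) (x : Fin N) (d : Fin N → Fin N → ℕ) :
    (Prop × Fin N × (Fin N → ℕ)) × Fin N × Fin N × Finset (Fin N) :=
  (q1 R L Δ x d, pp R L Δ d x, top (key d) R L Δ x, ch (key d) R L Δ x)

/-- cost of the data of a vertex, in rows -/
def cF (L : ℕ) : ℕ := (L + 1) + (L + 1) * (2 * (L + 1))

theorem FF_loc (LB : S_LOCBASIC) (K : S_KEY) (P1 : S_PRIM1) (PL : S_PLOC) (UN : S_UNIT) {k : ℕ}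
    {R : Finset (Fin N)} (hR : R.Nonempty) {D : Set (Fin N → Fin N → ℕ)} (hG : Gd k R D)
    (L Δ : ℕ) (x : Fin N) : LocOn D (cF L * N) (FF R L Δ x) := by
  have hc : cF L * N = (L + 1) * N + (L + 1) * (2 * ((L + 1) * N)) := by
    unfold cF; ring
  rw [hc]
  refine loc_bind LB (q1_loc LB K P1 PL hR hG L Δ x) fun d0 hd0 => ?_
  refine loc_det LB (sq_loc LB K P1 PL hR (hG.lev _ _) L Δ x (L + 1)) fun d hd d' hd' h => ?_
  have hq : q1 R L Δ x d = q1 R L Δ x d' := hd.2.trans hd'.2.symm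
  have hit : ∀ j ≤ L + 1, (p0 (key d) R L Δ)^[j] x = (p0 (key d') R L Δ)^[j] x := by
    intro j hj
    have h1 := congrFun h j
    unfold sq at h1
    rw [if_pos hj, if_pos hj] at h1
    exact h1
  have h1 := top_iter UN (hG.key K hd.1) hR L Δ x
  have h2 := top_iter UN (hG.key K hd'.1) hR L Δ x
  have e1 : pp R L Δ d x = pp R L Δ d' x := hit 1 (by omega)
  have e2 : top (key d) R L Δ x = top (key d') R L Δ x := by
    rw [h1.1, h2.1, hit L (by omega)]
  have e3 : ch (key d) R L Δ x = ch (key d') R L Δ x := by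
    rw [h1.2, h2.2]
    refine filter_congr fun u _ => ?_
    refine exists_congr fun j => and_congr_right fun hj => ?_
    rw [hit j (by omega)]
  unfold FF
  rw [hq, e1, e2, e3]

/-! ### The unit -/

/-- exploration of the unit from its top -/
noncomputable def UU (V : Finset (Fin N)) (p : Fin N → Fin N) (l : Fin N) : ℕ → Finset (Fin N)
  | 0 => {l}
  | j + 1 => UU V p l j ∪ V.filter fun x => p x ∈ UU V p l j

theorem UU_zero (V : Finset (Fin N)) (p : Fin N → Fin N) (l : Fin N) : UU V p l 0 = {l} := rfl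

theorem UU_succ (V : Finset (Fin N)) (p : Fin N → Fin N) (l : Fin N) (j : ℕ) :
    UU V p l (j + 1) = UU V p l j ∪ V.filter fun x => p x ∈ UU V p l j := rfl

theorem p0_mem (UN : S_UNIT) {κ : Fin N → Fin N → ℕ} (hκ : IsKey κ) {R : Finset (Fin N)}
    (hR : R.Nonempty) {L Δ : ℕ} {x : Fin N} (hx : x ∈ V0 κ R L Δ) :
    p0 κ R L Δ x ∈ V0 κ R L Δ ∧ top κ R L Δ (p0 κ R L Δ x) = top κ R L Δ x := by
  obtain ⟨hU, _⟩ := UN N κ hκ R hR L Δ
  obtain ⟨_, h2, _, _, _, h6, _⟩ := hU x hx
  have h1 : p0 κ R L Δ x ∈ ch κ R L Δ x := mem_filter.2 ⟨mem_univ _, 1, rfl⟩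
  exact ⟨h2 h1, h6 _ h1⟩

theorem UU_sub (UN : S_UNIT) {κ : Fin N → Fin N → ℕ} (hκ : IsKey κ) {R : Finset (Fin N)}
    (hR : R.Nonempty) {L Δ : ℕ} {l : Fin N} (hl : l ∈ V0 κ R L Δ) (hlt : top κ R L Δ l = l)
    (j : ℕ) : UU (V0 κ R L Δ) (p0 κ R L Δ) l j ⊆
      (V0 κ R L Δ).filter fun x => top κ R L Δ x = l := by
  induction j with
  | zero =>
    intro x hx
    rw [UU_zero] at hx
    obtain rfl := mem_singleton.1 hx
    exact mem_filter.2 ⟨hl, hlt⟩
  | succ j ih =>
    intro x hx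
    rw [UU_succ] at hx
    rcases mem_union.1 hx with h | h
    · exact ih h
    · obtain ⟨h1, h2⟩ := mem_filter.1 h
      have h3 := (mem_filter.1 (ih h2)).2
      exact mem_filter.2 ⟨h1, by rw [← (p0_mem UN hκ hR h1).2, h3]⟩

theorem UU_sup (UN : S_UNIT) {κ : Fin N → Fin N → ℕ} (hκ : IsKey κ) {R : Finset (Fin N)}
    (hR : R.Nonempty) {L Δ : ℕ} {l : Fin N} (j : ℕ) : ∀ x ∈ V0 κ R L Δ,
      (p0 κ R L Δ)^[j] x = l → x ∈ UU (V0 κ R L Δ) (p0 κ R L Δ) l j := by
  induction j with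
  | zero =>
    intro x _ h
    rw [UU_zero]
    rw [Function.iterate_zero_apply] at h
    exact mem_singleton.2 h
  | succ j ih =>
    intro x hx h
    rw [Function.iterate_succ_apply] at h
    rw [UU_succ]
    exact mem_union_right _ (mem_filter.2 ⟨hx, ih _ (p0_mem UN hκ hR hx).1 h⟩)

theorem UU_eq (UN : S_UNIT) {κ : Fin N → Fin N → ℕ} (hκ : IsKey κ) {R : Finset (Fin N)}
    (hR : R.Nonempty) {L Δ : ℕ} {l : Fin N} (hl : l ∈ V0 κ R L Δ) (hlt : top κ R L Δ l = l) :
    UU (V0 κ R L Δ) (p0 κ R L Δ) l L = (V0 κ R L Δ).filter fun x => top κ R L Δ x = l := by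
  refine Subset.antisymm (UU_sub UN hκ hR hl hlt L) fun x hx => ?_
  obtain ⟨h1, h2⟩ := mem_filter.1 hx
  exact UU_sup UN hκ hR L x h1 (by rw [← (top_iter UN hκ hR L Δ x).1, h2])

/-- cost of one step, in rows -/
def cU (L Δ : ℕ) : ℕ := (Δ + 1) ^ L + (Δ + 1) ^ L * Δ * cF L

/-- the rows of a set -/
noncomputable def rws (a : Finset (Fin N)) (d : Fin N → Fin N → ℕ) (i : Fin N) : Fin N → ℕ :=
  if i ∈ a then d i else default

theorem UU_loc (LB : S_LOCBASIC) (K : S_KEY) (P1 : S_PRIM1) (PL : S_PLOC) (UN : S_UNIT) {k : ℕ}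
    {R : Finset (Fin N)} (hR : R.Nonempty) {D : Set (Fin N → Fin N → ℕ)} (hG : Gd k R D)
    (L Δ : ℕ) (l : Fin N) (hl : ∀ d ∈ D, l ∈ V0 (key d) R L Δ ∧ top (key d) R L Δ l = l)
    (j : ℕ) : LocOn D (j * (cU L Δ * N))
      (fun d => UU (V0 (key d) R L Δ) (p0 (key d) R L Δ) l j) := by
  have : Inhabited (Fin N) := ⟨l⟩
  induction j with
  | zero =>
    rw [Nat.zero_mul]
    exact loc_const LB fun d _ d' _ => by rw [UU_zero, UU_zero]
  | succ j ih =>
    rw [Nat.add_mul, Nat.one_mul]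
    refine loc_bind LB ih fun d0 hd0 => ?_
    set a := UU (V0 (key d0) R L Δ) (p0 (key d0) R L Δ) l j with ha
    set D1 : Set (Fin N → Fin N → ℕ) :=
      {d | d ∈ D ∧ UU (V0 (key d) R L Δ) (p0 (key d) R L Δ) l j = a} with hD1
    have hG1 : Gd k R D1 := hG.mono fun d hd => hd.1
    have haV : ∀ d ∈ D1, a ⊆ (V0 (key d) R L Δ).filter fun x => top (key d) R L Δ x = l := by
      intro d hd
      rw [← hd.2]
      exact UU_sub UN (hG.key K hd.1) hR (hl d hd.1).1 (hl d hd.1).2 j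
    have hacard : a.card ≤ (Δ + 1) ^ L :=
      (card_le_card (haV d0 ⟨hd0, rfl⟩)).trans ((UN N _ (hG.key K hd0) R hR L Δ).2.1 l)
    have hc : cU L Δ * N = (Δ + 1) ^ L * N + (Δ + 1) ^ L * Δ * (cF L * N) := by
      unfold cU; ring
    rw [hc]
    have hrows : LocOn D1 ((Δ + 1) ^ L * N) (rws a) :=
      loc_mono LB (loc_pi LB a (fun i d => d i) fun i _ => loc_row LB D1 i) (fun _ h => h)
        (Nat.mul_le_mul_right _ hacard)
    refine loc_bind LB hrows fun d1 hd1 => ?_
    set D2 : Set (Fin N → Fin N → ℕ) := {d | d ∈ D1 ∧ rws a d = rws a d1} with hD2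
    have hG2 : Gd k R D2 := hG1.mono fun d hd => hd.1
    have hrow : ∀ d ∈ D2, ∀ y ∈ a, d y = d1 y := by
      intro d hd y hy
      have := congrFun hd.2 y
      unfold rws at this
      rwa [if_pos hy, if_pos hy] at this
    set C := a.biUnion (dn (key d1) R) with hC
    have hCcard : C.card ≤ (Δ + 1) ^ L * Δ := by
      refine (card_biUnion_le_card_mul a _ Δ fun y hy => ?_).trans (Nat.mul_le_mul_right _ hacard)
      have h1 := (mem_filter.1 (haV d1 hd1 hy)).1
      have h2 := (mem_filter.1 h1).2.2.2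
      exact not_lt.1 h2
    have hdn : ∀ d ∈ D2, ∀ y ∈ a, dn (key d) R y = dn (key d1) R y := fun d hd y hy =>
      dn_eq K hG1 hd.1 hd1 (hrow d hd y hy)
    have hFF : LocOn D2 ((Δ + 1) ^ L * Δ * (cF L * N))
        (fun d x => if x ∈ C then FF R L Δ x d else default) :=
      loc_mono LB (loc_pi LB C (fun x d => FF R L Δ x d) fun x _ =>
        FF_loc LB K P1 PL UN hR hG2 L Δ x) (fun _ h => h) (Nat.mul_le_mul_right _ hCcard)
    refine loc_det LB hFF fun d hd d' hd' h => ?_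
    have key1 : ∀ e ∈ D2, ∀ e' ∈ D2, (fun x => if x ∈ C then FF R L Δ x e else default) =
        (fun x => if x ∈ C then FF R L Δ x e' else default) → ∀ x, x ∉ a →
        x ∈ V0 (key e) R L Δ → p0 (key e) R L Δ x ∈ a →
        x ∈ V0 (key e') R L Δ ∧ p0 (key e') R L Δ x ∈ a := by
      intro e he e' he' hee x hxa hxV hpx
      have hne : p0 (key e) R L Δ x ≠ x := fun h => hxa (h ▸ hpx)
      have hcond : x ∈ V0 (key e) R L Δ ∧ par (key e) R x ∈ V0 (key e) R L Δ := by
        by_contra hcon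
        exact hne (by unfold p0; rw [if_neg hcon])
      have hpe : p0 (key e) R L Δ x = par (key e) R x := by unfold p0; rw [if_pos hcond]
      have hxC : x ∈ C := by
        rw [hC, mem_biUnion]
        refine ⟨par (key e) R x, hpe ▸ hpx, ?_⟩
        rw [← hdn e he _ (hpe ▸ hpx)]
        exact (UN N _ (hG2.key K he) R hR L Δ).2.2.1 _ hcond.2 x hxV rfl
      have h1 := congrFun hee x
      simp only [if_pos hxC] at h1
      have h2 : (x ∈ V0 (key e) R L Δ) = (x ∈ V0 (key e') R L Δ) :=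
        congrArg (fun z => z.1.1) h1
      have h3 : p0 (key e) R L Δ x = p0 (key e') R L Δ x := congrArg (fun z => z.2.1) h1
      exact ⟨h2 ▸ hxV, h3 ▸ hpx⟩
    have e1 : ∀ e ∈ D2, UU (V0 (key e) R L Δ) (p0 (key e) R L Δ) l (j + 1) =
        a ∪ (V0 (key e) R L Δ).filter fun x => p0 (key e) R L Δ x ∈ a := by
      intro e he
      rw [UU_succ, he.1.2]
    rw [e1 d hd, e1 d' hd']
    ext x
    simp only [mem_union, mem_filter]
    by_cases hxa : x ∈ a
    · simp [hxa]
    · simp only [hxa, false_or]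
      exact ⟨fun hh => key1 d hd d' hd' h x hxa hh.1 hh.2,
        fun hh => key1 d' hd' d hd h.symm x hxa hh.1 hh.2⟩

theorem t_LUN : S_LOCBASIC → S_KEY → S_CLUS → S_PAR → S_PRIM1 → S_PRIM2 → S_PRIM3 → S_PLOC →
    S_UNIT → S_LUN := by
  intro LB K _ _ P1 _ _ PL UN k L Δ
  refine ⟨cF L + (L * cU L Δ + (Δ + 1) ^ L * cF L), fun N R hR D hD1 hD2 v => ?_⟩
  have : Inhabited (Fin N) := ⟨v⟩
  have hG : Gd k R D := ⟨hD1, hD2⟩
  have hc : (cF L + (L * cU L Δ + (Δ + 1) ^ L * cF L)) * N =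
      cF L * N + (L * (cU L Δ * N) + (Δ + 1) ^ L * (cF L * N)) := by ring
  rw [hc]
  refine loc_bind LB (FF_loc LB K P1 PL UN hR hG L Δ v) fun d0 hd0 => ?_
  have hG1 : Gd k R {d | d ∈ D ∧ FF R L Δ v d = FF R L Δ v d0} := hG.lev _ _
  have hV : ∀ d ∈ {d | d ∈ D ∧ FF R L Δ v d = FF R L Δ v d0},
      (v ∈ V0 (key d) R L Δ) = (v ∈ V0 (key d0) R L Δ) := fun d hd =>
    congrArg (fun z => z.1.1) hd.2
  have hT : ∀ d ∈ {d | d ∈ D ∧ FF R L Δ v d = FF R L Δ v d0},
      top (key d) R L Δ v = top (key d0) R L Δ v := fun d hd =>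
    congrArg (fun z => z.2.2.1) hd.2
  by_cases hv : v ∈ V0 (key d0) R L Δ
  · set l := top (key d0) R L Δ v with hl
    have hlV : ∀ d ∈ {d | d ∈ D ∧ FF R L Δ v d = FF R L Δ v d0},
        l ∈ V0 (key d) R L Δ ∧ top (key d) R L Δ l = l := by
      intro d hd
      have hvd : v ∈ V0 (key d) R L Δ := by rw [hV d hd]; exact hv
      obtain ⟨_, h2, _, _, h5, h6, _⟩ := (UN N _ (hG1.key K hd) R hR L Δ).1 v hvd
      rw [← hT d hd]
      exact ⟨h2 h5, h6 _ h5⟩
    refine loc_bind LB (UU_loc LB K P1 PL UN hR hG1 L Δ l hlV L) fun d1 hd1 => ?_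
    set D1 : Set (Fin N → Fin N → ℕ) := {d | d ∈ D ∧ FF R L Δ v d = FF R L Δ v d0} with hD1'
    set a := UU (V0 (key d1) R L Δ) (p0 (key d1) R L Δ) l L with ha
    set D2 : Set (Fin N → Fin N → ℕ) :=
      {d | d ∈ D1 ∧ UU (V0 (key d) R L Δ) (p0 (key d) R L Δ) l L = a} with hD2'
    have hG2 : Gd k R D2 := hG1.mono fun d hd => hd.1
    have haU : ∀ d ∈ D2, (V0 (key d) R L Δ).filter (fun x => top (key d) R L Δ x = l) = a := by
      intro d hd
      rw [← UU_eq UN (hG2.key K hd) hR (hlV d hd.1).1 (hlV d hd.1).2, hd.2]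
    have hacard : a.card ≤ (Δ + 1) ^ L := by
      rw [← haU d1 ⟨hd1, rfl⟩]
      exact (UN N _ (hG1.key K hd1) R hR L Δ).2.1 l
    have hFF : LocOn D2 ((Δ + 1) ^ L * (cF L * N))
        (fun d x => if x ∈ a then FF R L Δ x d else default) :=
      loc_mono LB (loc_pi LB a (fun x d => FF R L Δ x d) fun x _ =>
        FF_loc LB K P1 PL UN hR hG2 L Δ x) (fun _ h => h) (Nat.mul_le_mul_right _ hacard)
    refine loc_det LB hFF fun d hd d' hd' h => ?_
    have hvV : (v ∈ V0 (key d) R L Δ) = (v ∈ V0 (key d') R L Δ) :=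
      (hV d hd.1).trans (hV d' hd'.1).symm
    have hform : ∀ e ∈ D2, (usys L Δ R e).vinf v = (v ∈ V0 (key e) R L Δ, l, a,
        fun x => if x ∈ a then (ch (key e) R L Δ x, e x (par (key e) R x), e x)
          else (∅, 0, fun _ => 0)) := by
      intro e he
      have h1 : top (key e) R L Δ v = l := hT e he.1
      have h2 : (usys L Δ R e).un (top (key e) R L Δ v) = a := by
        rw [h1]
        exact haU e he
      show (v ∈ V0 (key e) R L Δ, top (key e) R L Δ v, (usys L Δ R e).un (top (key e) R L Δ v),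
        fun x => if x ∈ (usys L Δ R e).un (top (key e) R L Δ v) then
          (ch (key e) R L Δ x, e x (par (key e) R x), e x) else (∅, 0, fun _ => 0)) = _
      rw [h2, h1]
    rw [hform d hd, hform d' hd', hvV]
    congr 3
    funext x
    by_cases hx : x ∈ a
    · rw [if_pos hx, if_pos hx]
      have h1 := congrFun h x
      simp only [if_pos hx] at h1
      have hxd : x ∈ V0 (key d) R L Δ := by
        have := hx
        rw [← haU d hd] at this
        exact (mem_filter.1 this).1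
      have hxd' : x ∈ V0 (key d') R L Δ := by
        have := hx
        rw [← haU d' hd'] at this
        exact (mem_filter.1 this).1
      have e1 : ch (key d) R L Δ x = ch (key d') R L Δ x := congrArg (fun z => z.2.2.2) h1
      have e2 : d x = d' x := congrArg (fun z => z.1.2.2) h1
      have e3 : par (key d) R x = par (key d') R x := by
        have := congrArg (fun z => z.1.2.1) h1
        simp only [FF, q1] at this
        rwa [if_pos hxd, if_pos hxd'] at this
      rw [e1, e2, e3]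
    · rw [if_neg hx, if_neg hx]
  · refine loc_mono LB (loc_const LB fun d hd d' hd' => ?_) (fun _ h => h) (Nat.zero_le _)
    have hform : ∀ e ∈ {d | d ∈ D ∧ FF R L Δ v d = FF R L Δ v d0}, (usys L Δ R e).vinf v =
        (False, v, ∅, fun _ => (∅, 0, fun _ => 0)) := by
      intro e he
      have hve : v ∉ V0 (key e) R L Δ := by rw [hV e he]; exact hv
      have h1 : top (key e) R L Δ v = v := p0_out hve N
      have h2 : (usys L Δ R e).un (top (key e) R L Δ v) = ∅ := by
        rw [h1]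
        show (V0 (key e) R L Δ).filter (fun x => top (key e) R L Δ x = v) = ∅
        refine filter_eq_empty_iff.2 fun x hx hxv => ?_
        obtain ⟨_, h2, _, _, h5, _⟩ := (UN N _ (hG1.key K he) R hR L Δ).1 x hx
        exact hve (hxv ▸ h2 h5)
      show (v ∈ V0 (key e) R L Δ, top (key e) R L Δ v, (usys L Δ R e).un (top (key e) R L Δ v),
        fun x => if x ∈ (usys L Δ R e).un (top (key e) R L Δ v) then
          (ch (key e) R L Δ x, e x (par (key e) R x), e x) else (∅, 0, fun _ => 0)) = _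
      rw [h2, h1]
      simp only [hve, notMem_empty, if_false]
    rw [hform d hd, hform d' hd']

end Pool.Agent.H230.T.LUN
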